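import Pool.Agent.H29.ENR.Stmts

/-!
Board enr, row UN2.
-/

set_option autoImplicit false

namespace Pool.ENR

open Pool.Agent.H81.ENG

theorem un2_thm : UN2Stmt := by
  intro B _ S N _ p μ hp hcomm hsN hsN' hS v hv hv1 hSv haff ξ r hr hrel hfix d hL
  by_contra hnd
  obtain ⟨a, ha, -, haz⟩ := lin_part S N hcomm hsN hv hSv ξ r
  have haz := haz hr
  set u0 : N := ⟨S⁻¹ ((ef S)^[r] ξ) * ξ⁻¹, by
    have := hsN' _ hrel
    rwa [map_mul, map_inv, MulAut.inv_apply_self] at this⟩ with hu0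
  let a' : N →* N :=
      { toFun := fun n => ⟨S⁻¹ (a n : B), hsN' _ (a n).2⟩
        map_one' := by apply Subtype.ext; simp
        map_mul' := by intro x y; apply Subtype.ext; simp }
  let φ : N → N := fun n => a' n * u0
  let Φ : B → B := fun x => S⁻¹ ((ef S)^[r] x)
  have hΦφ : ∀ n : N, Φ ((n : B) * ξ) = (φ n : B) * ξ := by
    intro n
    show S⁻¹ ((ef S)^[r] ((n : B) * ξ)) = (S⁻¹ (a n : B) * (S⁻¹ ((ef S)^[r] ξ) * ξ⁻¹)) * ξ
    rw [ha, map_mul]
    group
  have hΦφk : ∀ (k : ℕ) (n : N), Φ^[k] ((n : B) * ξ) = (φ^[k] n : B) * ξ := by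
    intro k
    induction k with
    | zero => intro n; rfl
    | succ k ih => intro n; rw [Function.iterate_succ_apply, hΦφ, ih, Function.iterate_succ_apply]
  have hΦk : ∀ (k : ℕ) (x : B), Φ^[k] x = (S ^ (-(k : ℤ))) ((ef S)^[r * k] x) := by
    intro k
    induction k with
    | zero => intro x; simp
    | succ k ih =>
      intro x
      rw [Function.iterate_succ_apply, ih]
      show (S ^ (-(k : ℤ))) ((ef S)^[r * k] (S⁻¹ ((ef S)^[r] x))) = _
      have h1 : S⁻¹ ((ef S)^[r] x) = (S ^ (-1 : ℤ)) ((ef S)^[r] x) := by rw [zpow_neg_one]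
      rw [h1, ef_iter_zpow, ← MulAut.mul_apply, ← zpow_add, ← Function.iterate_add_apply]
      congr 2
      push_cast
      ring
  obtain ⟨m, t, hm, hmt⟩ := haff a' u0 (by
    apply Subtype.ext
    show S⁻¹ (a ⟨v, hv⟩ : B) = 1
    rw [haz]
    simp)
  -- exponents
  have hm0 : 0 < m := Nat.pos_of_ne_zero (by rintro rfl; exact hm (dvd_zero _))
  have hd0 : d ≠ 0 := by rintro rfl; exact hnd (dvd_zero _)
  obtain ⟨w, r', hr', hdv⟩ := Nat.exists_eq_pow_mul_and_not_dvd hd0 p hp.ne_one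
  have hvμ : w ≤ μ := by
    by_contra hcon
    push Not at hcon
    exact hnd (hdv ▸ Dvd.dvd.mul_right (pow_dvd_pow p hcon) r')
  have hdd : d ∣ p ^ μ * r' := hdv ▸ Nat.mul_dvd_mul_right (pow_dvd_pow p hvμ) r'
  set n : N := φ^[t] 1 with hndef
  have hn : φ^[m * p ^ μ] n = n := by
    have h1 := hmt 1
    rw [add_comm, Function.iterate_add_apply] at h1
    exact h1
  set x : B := (n : B) * ξ with hx
  set K : ℕ := m * p ^ μ with hK
  have hper0 : (ef S)^[r * K] x = (S ^ (K : ℤ)) x := by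
    have h1 := hΦφk K n
    rw [hn, ← hx, hΦk] at h1
    have h2 := congrArg (S ^ (K : ℤ)) h1
    rw [← MulAut.mul_apply, ← zpow_add, add_neg_cancel, zpow_zero] at h2
    exact h2
  have hsp : ∀ k : ℕ, ∀ y : B, (S ^ (p ^ (μ + 1) * k)) y = y := by
    intro k y
    rw [pow_mul, hS, one_pow]
    rfl
  have hper1 : (ef S)^[r * K * p] x = x := by
    rw [ef_iter_mul S _ _ x hper0]
    have h3 : ((K : ℤ) * ((p : ℕ) : ℤ)) = ((p ^ (μ + 1) * m : ℕ) : ℤ) := by
      rw [hK]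
      push_cast
      ring
    rw [h3, zpow_natCast, hsp]
  have hKpos : 0 < K := Nat.mul_pos hm0 (pow_pos hp.pos _)
  have hfd : (ef S)^[d] x = x :=
    hL.periodic (Nat.mul_pos (Nat.mul_pos hr hKpos) hp.pos) hper1
  have hfdk : ∀ k, d ∣ k → (ef S)^[k] x = x := by
    rintro k ⟨k', rfl⟩
    rw [Function.iterate_mul]
    exact Function.iterate_fixed hfd k'
  have h5 : (ef S)^[r * K * r'] x = x := by
    apply hfdk
    have : r * K * r' = (r * m) * (p ^ μ * r') := by rw [hK]; ring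
    rw [this]
    exact Dvd.dvd.mul_left hdd _
  rw [ef_iter_mul S _ _ x hper0] at h5
  have h6 : ((K : ℤ) * ((r' : ℕ) : ℤ)) = ((p ^ μ * (m * r') : ℕ) : ℤ) := by
    rw [hK]
    push_cast
    ring
  rw [h6, zpow_natCast] at h5
  refine hfix n n.2 (m * r') ?_ h5
  intro h7
  rcases (Nat.Prime.dvd_mul hp).1 h7 with h8 | h8
  · exact hm h8
  · exact hr' h8

end Pool.ENR
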